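import Mathlib
import Pool.Agent.Helper87.LD.MainV

set_option autoImplicit false

namespace Pool.Agent.Results.MP_295d38_ag.AlmostAllEndomorphisms

open MvPolynomial

/-- The families of forms `Fⱼᵢ` of degree `d` in `N + 1` variables, where `j` takes `m` values and
`i` takes `N + 1` values, with integral coefficients in `[-B, B]`. -/
def box (N m d B : ℕ) : Set (Fin m → Fin (N + 1) → MvPolynomial (Fin (N + 1)) ℤ) :=
  {F | ∀ j i, (F j i).IsHomogeneous d ∧ ∀ s, |coeff s (F j i)| ≤ (B : ℤ)}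

/-- The forms `∑ⱼ eⱼ Fⱼᵢ`. -/
noncomputable def comb {N m : ℕ} (e : Fin m → ℂ)
    (F : Fin m → Fin (N + 1) → MvPolynomial (Fin (N + 1)) ℤ) (i : Fin (N + 1)) :
    MvPolynomial (Fin (N + 1)) ℂ :=
  ∑ j, C (e j) * map (Int.castRingHom ℂ) (F j i)

/-- The forms `Pᵢ` have no common zero in `ℂ ^ (N + 1)` except `0`, i.e. they define an endomorphism
of `ℙᴺ`. -/
def IsEndo {N : ℕ} (P : Fin (N + 1) → MvPolynomial (Fin (N + 1)) ℂ) : Prop :=
  ∀ z : Fin (N + 1) → ℂ, (∀ i, eval z (P i) = 0) → z = 0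

/-- The endomorphism of `ℙᴺ` given by the forms `Pᵢ`, in homogeneous coordinates. -/
noncomputable def endo {N : ℕ} (P : Fin (N + 1) → MvPolynomial (Fin (N + 1)) ℂ)
    (x : Fin (N + 1) → ℂ) : Fin (N + 1) → ℂ :=
  fun i => eval x (P i)

/-- The return set `{n : Φⁿ(α) ∈ V}` for the endomorphism `Φ` of `ℙᴺ` given by the forms `Pᵢ`, the
point `α` of `ℙᴺ` given by homogeneous coordinates, and the closed subset `V` of `ℙᴺ` cut out by the
forms of the set `V`. -/
def returnSet {N : ℕ} (P : Fin (N + 1) → MvPolynomial (Fin (N + 1)) ℂ) (α : Fin (N + 1) → ℂ)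
    (V : Set (MvPolynomial (Fin (N + 1)) ℂ)) : Set ℕ :=
  {n | ∀ G ∈ V, eval ((endo P)^[n] α) G = 0}

/-- **Uniform dynamical Mordell-Lang for almost all endomorphisms of the projective plane and of
projective 3-space of large degree.** Let `N` be `2` or `3`, let `L` be a finitely generated field
of complex numbers and let `e₁, …, eₘ` be elements of `L`, not all zero (for example a basis of the
ring of integers of a number field). There are `Q` and `n₀` such that in every sufficiently large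
degree `d` there are constants `C δ` such that almost all tuples of forms `∑ⱼ eⱼ Fⱼ`, where the `Fⱼ`
are integral, define an endomorphism `Φ` of `ℙᴺ` with the following properties. For all points `α`
of `ℙᴺ` over purely transcendental extensions of `L` and all closed subsets `V` of `ℙᴺ` over `ℂ`
which are cut out by forms of degree at most `δ` the return set consists of finitely many arithmetic
progressions with difference `Q` which start before `n₀ + Q` and of at most `C δ` further elements;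
and `Φ ^ Q` fixes all these points `α` which are periodic. -/
theorem result (N : ℕ) (hN : N = 2 ∨ N = 3) (A : Finset ℂ) (m : ℕ) (e : Fin m → ℂ) (he : e ≠ 0)
    (heA : ∀ j, e j ∈ Subfield.closure (A : Set ℂ)) (ε : ℝ) (hε : 0 < ε) :
    ∃ Q n₀ d₀ : ℕ, 1 ≤ Q ∧ ∀ d : ℕ, d₀ ≤ d → ∃ (C : ℕ → ℕ) (B₀ : ℕ), ∀ B : ℕ, B₀ ≤ B →
      (box N m d B).Finite ∧ (1 - ε) * ((box N m d B).ncard : ℝ) ≤
        (({F ∈ box N m d B | IsEndo (comb e F) ∧
          ∀ (r : ℕ) (t : Fin r → ℂ), AlgebraicIndependent (Subfield.closure (A : Set ℂ)) t →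
          ∀ α : Fin (N + 1) → ℂ, α ≠ 0 →
            (∀ i, α i ∈ Subfield.closure ((A : Set ℂ) ∪ Set.range t)) →
            (∀ (δ : ℕ) (V : Set (MvPolynomial (Fin (N + 1)) ℂ)),
              (∀ G ∈ V, ∃ k ≤ δ, G.IsHomogeneous k) →
              ∃ E T : Finset ℕ, E.card ≤ C δ ∧ (∀ a ∈ T, a < n₀ + Q) ∧
                returnSet (comb e F) α V = {n | n ∈ E ∨ ∃ a ∈ T, ∃ k, n = a + Q * k}) ∧
            ((∃ j : ℕ, 1 ≤ j ∧ ∃ c : ℂ, (endo (comb e F))^[j] α = c • α) →
              ∃ c : ℂ, (endo (comb e F))^[Q] α = c • α)}).ncard : ℝ) := by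
  obtain ⟨d₀, n₀, Q, hQ, h⟩ :=
    Pool.Agent.Helper87.LD.ldv_main (N + 1) (by omega) m e he A heA ε hε
  refine ⟨Q, n₀, d₀, hQ, fun d hd => ?_⟩
  obtain ⟨K, B₀, hB₀⟩ := h d hd
  refine ⟨K, B₀, fun B hB => ?_⟩
  have h1 := hB₀ B hB
  have hbox : box N m d B = Pool.Agent.Helper87.LD.fam ''
      {c : Fin m × Pool.Agent.Helper87.LD.Idx (N + 1) d → ℤ | ∀ i, |c i| ≤ (B : ℤ)} := by
    ext F
    constructor
    · intro hF
      obtain ⟨c, rfl⟩ := Pool.Agent.Helper87.LD.fam_surj F fun j i => (hF j i).1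
      refine ⟨c, fun i => ?_, rfl⟩
      have h2 := (hF i.1 i.2.1).2 i.2.2.1
      rwa [Pool.Agent.Helper87.LD.fam, Pool.Agent.Helper87.LD.coeff_form] at h2
    · rintro ⟨c, hc, rfl⟩ j i
      refine ⟨Pool.Agent.Helper87.LD.form_isHomogeneous _ i, fun s => ?_⟩
      by_cases hs : s ∈ Pool.Agent.Helper87.LD.ex (N + 1) d
      · rw [Pool.Agent.Helper87.LD.fam, Pool.Agent.Helper87.LD.coeff_form _ i ⟨s, hs⟩]
        exact hc _
      · rw [Pool.Agent.Helper87.LD.fam, Pool.Agent.Helper87.LD.coeff_form_of_notMem _ i hs, abs_zero]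
        exact Int.natCast_nonneg B
  have hfin : (box N m d B).Finite := by
    rw [hbox]
    exact (Pool.Agent.Helper87.LD.box_finite B).image _
  have hcomb : ∀ c : Fin m × Pool.Agent.Helper87.LD.Idx (N + 1) d → ℤ,
      comb e (Pool.Agent.Helper87.LD.fam c) =
        Pool.Agent.Helper87.LD.form (Pool.Agent.Helper87.LD.lc e fun j => (c j : ℂ)) :=
    fun c => funext fun i => Pool.Agent.Helper87.LD.comb_fam e c i
  refine ⟨hfin, ?_⟩
  rw [hbox, Set.ncard_image_of_injective _ Pool.Agent.Helper87.LD.fam_injective,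
    Pool.Agent.Helper87.LD.box_ncard, ← hbox]
  refine h1.trans (Nat.cast_le.2 (Set.ncard_le_ncard_of_injOn Pool.Agent.Helper87.LD.fam ?_
    (Pool.Agent.Helper87.LD.fam_injective.injOn) (hfin.subset fun F hF => hF.1)))
  rintro c ⟨hc, hE, hAP⟩
  refine ⟨hbox ▸ ⟨c, hc, rfl⟩, ?_, ?_⟩
  · rw [hcomb]
    exact hE
  · intro r t ht α hα hαL
    rw [hcomb]
    refine ⟨fun δ V hV => hAP r t ht α hα hαL δ V hV, fun hper => ?_⟩
    refine Pool.Agent.Helper87.LD.per_of_isAP
      (fun i => Pool.Agent.Helper87.LD.form_isHomogeneous _ i) hE hα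
      (Pool.Agent.Helper87.LD.isAP_of_isAPU (hAP r t ht α hα hαL 1 _ ?_)) hper
    rintro G ⟨i, j, rfl⟩
    exact ⟨1, le_refl _, IsHomogeneous.sub (isHomogeneous_C_mul_X _ _) (isHomogeneous_C_mul_X _ _)⟩

end Pool.Agent.Results.MP_295d38_ag.AlmostAllEndomorphisms
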