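import Mathlib
import Pool.Agent.Helper87.LW2.Final

set_option autoImplicit false

namespace Pool.Agent.Results.MP_295d38_ag.AlmostAllEndomorphisms

open MvPolynomial

/-- The `s`-tuples of families of forms `F a j i` in `N a + 1` variables, of degree `d a`, with
integral coefficients in `[-B, B]`. Here `a` takes `s` values (the maps), `j` takes `m` values (the
families) and `i` takes `N a + 1` values (the coordinates). -/
def box {s : ℕ} (N : Fin s → ℕ) (m : ℕ) (d : Fin s → ℕ) (B : ℕ) :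
    Set ((a : Fin s) → Fin m → Fin (N a + 1) → MvPolynomial (Fin (N a + 1)) ℤ) :=
  {F | ∀ a j i, (F a j i).IsHomogeneous (d a) ∧ ∀ t, |coeff t (F a j i)| ≤ (B : ℤ)}

/-- The forms `∑ⱼ eⱼ Fⱼᵢ`. -/
noncomputable def comb {N m : ℕ} (e : Fin m → ℂ)
    (F : Fin m → Fin (N + 1) → MvPolynomial (Fin (N + 1)) ℤ) (i : Fin (N + 1)) :
    MvPolynomial (Fin (N + 1)) ℂ :=
  ∑ j, C (e j) * map (Int.castRingHom ℂ) (F j i)

/-- The forms `Φᵢ` have no common zero in `ℂ ^ (N + 1)` except `0`, i.e. they define an endomorphism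
of `ℙᴺ`. -/
def IsEndo {N : ℕ} (Φ : Fin (N + 1) → MvPolynomial (Fin (N + 1)) ℂ) : Prop :=
  ∀ z : Fin (N + 1) → ℂ, (∀ i, eval z (Φ i) = 0) → z = 0

/-- The endomorphism of `ℙᴺ` given by the forms `Φᵢ`, in homogeneous coordinates. -/
noncomputable def endo {N : ℕ} (Φ : Fin (N + 1) → MvPolynomial (Fin (N + 1)) ℂ)
    (x : Fin (N + 1) → ℂ) : Fin (N + 1) → ℂ :=
  fun i => eval x (Φ i)

/-- The variables of a polynomial on `ℙ^(M₁) × ... × ℙ^(Mₖ)`: the homogeneous coordinates of the
factors, in `k` groups. -/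
abbrev Var {k : ℕ} (M : Fin k → ℕ) : Type := (b : Fin k) × Fin (M b + 1)

/-- All monomials of `G` have the same degree in the `b`-th group of variables, for each `b`. -/
def IsMultihomogeneous {k : ℕ} {M : Fin k → ℕ} (G : MvPolynomial (Var M) ℂ) : Prop :=
  ∃ g : Fin k → ℕ, ∀ t ∈ G.support, ∀ b, ∑ i, t ⟨b, i⟩ = g b

/-- The return set `{n : (Φ₁ × ... × Φₖ)ⁿ(α) ∈ V}` for endomorphisms `Φ_b` of `ℙ^(M_b)`, the point `α`
of the product of the `ℙ^(M_b)` given by homogeneous coordinates, and the closed subset `V` of this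
product cut out by the forms of the set `V`. -/
def returnSet {k : ℕ} {M : Fin k → ℕ}
    (Φ : (b : Fin k) → Fin (M b + 1) → MvPolynomial (Fin (M b + 1)) ℂ)
    (α : (b : Fin k) → Fin (M b + 1) → ℂ) (V : Set (MvPolynomial (Var M) ℂ)) : Set ℕ :=
  {n | ∀ G ∈ V, eval (fun c => (endo (Φ c.1))^[n] (α c.1) c.2) G = 0}

/-- The coordinates of the point `α` lie in an extension `K` of degree at most `D` of a purely
transcendental extension `E` of the field `L`. -/
def DegreeLE {k : ℕ} {M : Fin k → ℕ} (L : Subfield ℂ) (D : ℕ) (α : (b : Fin k) → Fin (M b + 1) → ℂ) :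
    Prop :=
  ∃ (r : ℕ) (t : Fin r → ℂ) (E : Subfield ℂ) (K : IntermediateField E ℂ),
    AlgebraicIndependent L t ∧ E = Subfield.closure ((L : Set ℂ) ∪ Set.range t) ∧
      FiniteDimensional E K ∧ Module.finrank E K ≤ D ∧ ∀ b i, α b i ∈ K

/-- **Uniform dynamical Mordell-Lang for almost all endomorphisms of large degree of the projective
line, the projective plane and projective 3-space, and for the products of these endomorphisms.** Let
`N₁, …, Nₛ` be `1` or `2` and let `D` be arbitrary; if `D = 1` one of the `Nₐ` may also be `3`. Let `L`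
be a finitely generated field of complex numbers and let `e₁, …, eₘ` be elements of `L`, not all zero
(for example a basis of the ring of integers of a number field). There are `Q k` and `n₀ k` such that
for all sufficiently large degrees `d₁, …, dₛ` there are constants `C k δ` such that almost all
`s`-tuples of tuples of forms `∑ⱼ eⱼ Fₐⱼ`, where the `Fₐⱼ` are integral of degree `dₐ` in `Nₐ + 1`
variables, define endomorphisms `Φₐ` of `ℙ^(Nₐ)` with the following properties. For all `k` and all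
`σ(1), …, σ(k)` (repetitions are allowed) put `X = ℙ^(N_σ(1)) × ... × ℙ^(N_σ(k))` and
`Φ = Φ_σ(1) × ... × Φ_σ(k)`. For all points `α` of `X` of degree at most `D` over a purely
transcendental extension of `L` and all closed subsets `V` of `X` over `ℂ` which are cut out by forms
of degree at most `δ` the return set consists of finitely many arithmetic progressions with difference
`Q k` which start before `n₀ k + Q k` and of at most `C k δ` further elements; and `Φₐ ^ (Q 1)` fixes
all points of degree at most `D` which are periodic for `Φₐ`. -/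
theorem result {s : ℕ} (N : Fin s → ℕ) (D : ℕ) (hN : ∀ a, N a = 1 ∨ N a = 2 ∨ (N a = 3 ∧ D = 1))
    (hN3 : ∀ a b, N a = 3 → N b = 3 → a = b) (A : Finset ℂ) (m : ℕ) (e : Fin m → ℂ) (he : e ≠ 0)
    (heA : ∀ j, e j ∈ Subfield.closure (A : Set ℂ)) (ε : ℝ) (hε : 0 < ε) :
    ∃ (Q n₀ : ℕ → ℕ) (d₀ : ℕ), (∀ k, 1 ≤ Q k) ∧ ∀ d : Fin s → ℕ, (∀ a, d₀ ≤ d a) →
      ∃ (C : ℕ → ℕ → ℕ) (B₀ : ℕ), ∀ B : ℕ, B₀ ≤ B →
      (box N m d B).Finite ∧ (1 - ε) * ((box N m d B).ncard : ℝ) ≤
        (({F ∈ box N m d B | (∀ a, IsEndo (comb e (F a))) ∧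
          (∀ (k : ℕ) (σ : Fin k → Fin s) (α : (b : Fin k) → Fin (N (σ b) + 1) → ℂ),
            (∀ b, α b ≠ 0) →
            DegreeLE (M := fun b => N (σ b)) (Subfield.closure (A : Set ℂ)) D α →
            ∀ (δ : ℕ) (V : Set (MvPolynomial (Var fun b => N (σ b)) ℂ)),
              (∀ G ∈ V, IsMultihomogeneous G ∧ G.totalDegree ≤ δ) →
              ∃ E T : Finset ℕ, E.card ≤ C k δ ∧ (∀ a ∈ T, a < n₀ k + Q k) ∧
                returnSet (M := fun b => N (σ b)) (fun b => comb e (F (σ b))) α V =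
                  {n | n ∈ E ∨ ∃ a ∈ T, ∃ j, n = a + Q k * j}) ∧
          ∀ (a : Fin s) (α : Fin (N a + 1) → ℂ), α ≠ 0 →
            DegreeLE (M := fun _ : Fin 1 => N a) (Subfield.closure (A : Set ℂ)) D (fun _ => α) →
            (∃ j : ℕ, 1 ≤ j ∧ ∃ c : ℂ, (endo (comb e (F a)))^[j] α = c • α) →
            ∃ c : ℂ, (endo (comb e (F a)))^[Q 1] α = c • α}).ncard : ℝ) :=
  Pool.Agent.Helper87.LW2.lm_final (fun a => N a + 1) D
    (Pool.Agent.Helper87.LW2.densOKM _ D (fun a => by have := hN a; omega)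
      fun a b ha hb => hN3 a b (by omega) (by omega)) m e he A heA ε hε

end Pool.Agent.Results.MP_295d38_ag.AlmostAllEndomorphisms
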