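import Mathlib
import Pool.Agent.Helper87.LW.Cases

set_option autoImplicit false

namespace Pool.Agent.Results.MP_295d38_ag.AlmostAllEndomorphisms

open MvPolynomial

/-- The `s`-tuples of families of forms `F a j i` in `N + 1` variables, of degree `d a`, with integral
coefficients in `[-B, B]`. Here `a` takes `s` values (the maps), `j` takes `m` values (the families)
and `i` takes `N + 1` values (the coordinates). -/
def box (N m : ℕ) {s : ℕ} (d : Fin s → ℕ) (B : ℕ) :
    Set (Fin s → Fin m → Fin (N + 1) → MvPolynomial (Fin (N + 1)) ℤ) :=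
  {F | ∀ a j i, (F a j i).IsHomogeneous (d a) ∧ ∀ t, |coeff t (F a j i)| ≤ (B : ℤ)}

/-- The forms `∑ⱼ eⱼ Fⱼᵢ`. -/
noncomputable def comb {N m : ℕ} (e : Fin m → ℂ)
    (F : Fin m → Fin (N + 1) → MvPolynomial (Fin (N + 1)) ℤ) (i : Fin (N + 1)) :
    MvPolynomial (Fin (N + 1)) ℂ :=
  ∑ j, C (e j) * map (Int.castRingHom ℂ) (F j i)

/-- The forms `Φᵢ` have no common zero in `ℂ ^ (N + 1)` except `0`, i.e. they define an endomorphism
of `ℙᴺ`. -/
def IsEndo {N : ℕ} (Φ : Fin (N + 1) → MvPolynomial (Fin (N + 1)) ℂ) : Prop :=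
  ∀ z : Fin (N + 1) → ℂ, (∀ i, eval z (Φ i) = 0) → z = 0

/-- The endomorphism of `ℙᴺ` given by the forms `Φᵢ`, in homogeneous coordinates. -/
noncomputable def endo {N : ℕ} (Φ : Fin (N + 1) → MvPolynomial (Fin (N + 1)) ℂ)
    (x : Fin (N + 1) → ℂ) : Fin (N + 1) → ℂ :=
  fun i => eval x (Φ i)

/-- The variables of `G` are the homogeneous coordinates of the points of `(ℙᴺ)ᵏ`, and all monomials
of `G` have the same degree in the `b`-th group of variables, for each `b`. -/
def IsMultihomogeneous {k N : ℕ} (G : MvPolynomial (Fin k × Fin (N + 1)) ℂ) : Prop :=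
  ∃ g : Fin k → ℕ, ∀ t ∈ G.support, ∀ b, ∑ i, t (b, i) = g b

/-- The return set `{n : (Φ₁ × ... × Φₖ)ⁿ(α) ∈ V}` for endomorphisms `Φ₁, ..., Φₖ` of `ℙᴺ`, the point
`α` of `(ℙᴺ)ᵏ` given by homogeneous coordinates, and the closed subset `V` of `(ℙᴺ)ᵏ` cut out by the
forms of the set `V`. -/
def returnSet {k N : ℕ} (Φ : Fin k → Fin (N + 1) → MvPolynomial (Fin (N + 1)) ℂ)
    (α : Fin k → Fin (N + 1) → ℂ) (V : Set (MvPolynomial (Fin k × Fin (N + 1)) ℂ)) : Set ℕ :=
  {n | ∀ G ∈ V, eval (fun c => (endo (Φ c.1))^[n] (α c.1) c.2) G = 0}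

/-- The coordinates of the point `α` lie in an extension `M` of degree at most `D` of a purely
transcendental extension `E` of the field `L`. -/
def DegreeLE {k N : ℕ} (L : Subfield ℂ) (D : ℕ) (α : Fin k → Fin (N + 1) → ℂ) : Prop :=
  ∃ (r : ℕ) (t : Fin r → ℂ) (E : Subfield ℂ) (M : IntermediateField E ℂ),
    AlgebraicIndependent L t ∧ E = Subfield.closure ((L : Set ℂ) ∪ Set.range t) ∧
      FiniteDimensional E M ∧ Module.finrank E M ≤ D ∧ ∀ b i, α b i ∈ M

/-- **Uniform dynamical Mordell-Lang for almost all endomorphisms of large degree of the projective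
line, the projective plane and projective 3-space, and for the products of these endomorphisms.** Let
`N` be `1` or `2` and let `D` and `s` be arbitrary, or let `N = 3` and `D = s = 1`. Let `L` be a
finitely generated field of complex numbers and let `e₁, …, eₘ` be elements of `L`, not all zero (for
example a basis of the ring of integers of a number field). There are `Q k` and `n₀ k` such that for
all sufficiently large degrees `d₁, …, dₛ` there are constants `C k δ` such that almost all `s`-tuples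
of tuples of forms `∑ⱼ eⱼ Fₐⱼ`, where the `Fₐⱼ` are integral of degree `dₐ`, define endomorphisms
`Φ₁, …, Φₛ` of `ℙᴺ` with the following properties. For all `k`, all products of `k` of the `Φₐ`
(repetitions are allowed), all points `α` of `(ℙᴺ)ᵏ` of degree at most `D` over a purely
transcendental extension of `L` and all closed subsets `V` of `(ℙᴺ)ᵏ` over `ℂ` which are cut out by
forms of degree at most `δ` the return set consists of finitely many arithmetic progressions with
difference `Q k` which start before `n₀ k + Q k` and of at most `C k δ` further elements; and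
`Φₐ ^ (Q 1)` fixes all points of degree at most `D` which are periodic for `Φₐ`. -/
theorem result (N D s : ℕ) (hN : N = 1 ∨ N = 2 ∨ (N = 3 ∧ D = 1 ∧ s = 1)) (A : Finset ℂ) (m : ℕ)
    (e : Fin m → ℂ) (he : e ≠ 0) (heA : ∀ j, e j ∈ Subfield.closure (A : Set ℂ)) (ε : ℝ)
    (hε : 0 < ε) :
    ∃ (Q n₀ : ℕ → ℕ) (d₀ : ℕ), (∀ k, 1 ≤ Q k) ∧ ∀ d : Fin s → ℕ, (∀ a, d₀ ≤ d a) →
      ∃ (C : ℕ → ℕ → ℕ) (B₀ : ℕ), ∀ B : ℕ, B₀ ≤ B →
      (box N m d B).Finite ∧ (1 - ε) * ((box N m d B).ncard : ℝ) ≤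
        (({F ∈ box N m d B | (∀ a, IsEndo (comb e (F a))) ∧
          (∀ (k : ℕ) (σ : Fin k → Fin s) (α : Fin k → Fin (N + 1) → ℂ), (∀ b, α b ≠ 0) →
            DegreeLE (Subfield.closure (A : Set ℂ)) D α →
            ∀ (δ : ℕ) (V : Set (MvPolynomial (Fin k × Fin (N + 1)) ℂ)),
              (∀ G ∈ V, IsMultihomogeneous G ∧ G.totalDegree ≤ δ) →
              ∃ E T : Finset ℕ, E.card ≤ C k δ ∧ (∀ a ∈ T, a < n₀ k + Q k) ∧
                returnSet (fun b => comb e (F (σ b))) α V =
                  {n | n ∈ E ∨ ∃ a ∈ T, ∃ j, n = a + Q k * j}) ∧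
          ∀ (a : Fin s) (α : Fin (N + 1) → ℂ), α ≠ 0 →
            DegreeLE (Subfield.closure (A : Set ℂ)) D (fun _ : Fin 1 => α) →
            (∃ j : ℕ, 1 ≤ j ∧ ∃ c : ℂ, (endo (comb e (F a)))^[j] α = c • α) →
            ∃ c : ℂ, (endo (comb e (F a)))^[Q 1] α = c • α}).ncard : ℝ) :=
  Pool.Agent.Helper87.LW.lw_final (N + 1) D s (Pool.Agent.Helper87.LW.densOK N D s hN) m e he A heA
    ε hε

end Pool.Agent.Results.MP_295d38_ag.AlmostAllEndomorphisms
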