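import Mathlib
import Pool.Agent.Helper87.GJ.Main
import Pool.Agent.Helper59.MF.FinK
import Pool.Agent.Helper59.MF.FinL

/-!
# The dimension of the points whose powers have a prescribed law modulo one

Let `1 < a < b` and let `g > 0` be a trigonometric polynomial of degree at most `H`, mean one, with coefficients `G k`,
`∑ |G k| < a ^ κ`, where `κ = κ(a, H) > 0` is explicit.  For every sequence of shifts `s n` the set of the `x` in `(a, b)` for
which `x ^ n + s n` has the law `g(t) dt` modulo one has the Hausdorff dimension `1 - (∫ g log g) / log b > 0`, and so has the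
subset of those `x` for which the terms behave like independent random variables with this law.
-/

set_option autoImplicit false

namespace Pool.Agent.Results.MP_9056e9_nt.ExactLaws

open Finset MeasureTheory Filter Topology

/-- The law of `u 0, u 1, ...` modulo one is `g(t) dt`. -/
def HasLaw (u : ℕ → ℝ) (g : ℝ → ℝ) : Prop :=
  ∀ α β : ℝ, 0 ≤ α → α ≤ β → β ≤ 1 →
    Tendsto (fun N : ℕ => (((range N).filter
      (fun n => α ≤ Int.fract (u n) ∧ Int.fract (u n) < β)).card : ℝ) / N) atTop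
      (𝓝 (∫ t in α..β, g t))

open scoped Classical in
/-- Modulo one, the terms of `u` behave like independent random variables with the law `g(t) dt`:
the joint law of `r` consecutive terms is the product law, for every `r`. -/
def Independent (u : ℕ → ℝ) (g : ℝ → ℝ) : Prop :=
  ∀ (r : ℕ) (α β : Fin r → ℝ), (∀ i, 0 ≤ α i ∧ α i ≤ β i ∧ β i ≤ 1) →
    Tendsto (fun N : ℕ => (((range N).filter
      (fun n => ∀ i : Fin r, α i ≤ Int.fract (u (n + i)) ∧ Int.fract (u (n + i)) < β i)).card : ℝ) / N)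
      atTop (𝓝 (∏ i, ∫ t in (α i)..(β i), g t))

theorem Independent.law {u : ℕ → ℝ} {g : ℝ → ℝ} (h : Independent u g) : HasLaw u g := by
  intro α β hα hαβ hβ
  have h1 := h 1 (fun _ => α) (fun _ => β) (fun _ => ⟨hα, hαβ, hβ⟩)
  simp only [Finset.univ_unique, Fin.default_eq_zero, Fin.isValue, Finset.prod_const,
    Finset.card_singleton, pow_one] at h1
  refine h1.congr fun N => ?_
  congr 3
  ext n
  simp only [mem_filter, and_congr_right_iff]
  intro _
  constructor
  · intro h2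
    exact h2 0
  · intro h2 i
    have : i = 0 := Subsingleton.elim _ _
    rw [this]
    exact h2

/-- bound for the orders of the zeros which occur, outside a countable set -/
noncomputable def K (a : ℝ) (H : ℕ) : ℕ := ⌊Real.log (2 * H / (1 - (√a)⁻¹)) / Real.log (√a)⌋₊ + 1

/-- the exponent -/
noncomputable def κ (a : ℝ) (H : ℕ) : ℝ := 1 / (4 * ((K a H : ℝ) + 1))

theorem result (H : ℕ) (hH : 1 ≤ H) (G : ℤ → ℂ) (g : ℝ → ℝ)
    (hg : ∀ t : ℝ, (g t : ℂ) =
      ∑ k ∈ Icc (-(H : ℤ)) H, G k * Complex.exp (2 * Real.pi * Complex.I * (k * t : ℝ)))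
    (h0 : G 0 = 1) (hpos : ∀ t : ℝ, 0 < g t)
    (a b : ℝ) (ha : 1 < a) (hab : a < b) (hG : ∑ k ∈ Icc (-(H : ℤ)) H, ‖G k‖ < a ^ κ a H) (s : ℕ → ℝ) :
    (∫ t in (0 : ℝ)..1, g t * Real.log (g t)) < Real.log b ∧
      dimH {x | x ∈ Set.Ioo a b ∧ HasLaw (fun n => x ^ n + s n) g} =
        ENNReal.ofReal (1 - (∫ t in (0 : ℝ)..1, g t * Real.log (g t)) / Real.log b) ∧
      dimH {x | x ∈ Set.Ioo a b ∧ Independent (fun n => x ^ n + s n) g} =
        ENNReal.ofReal (1 - (∫ t in (0 : ℝ)..1, g t * Real.log (g t)) / Real.log b) := by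
  have hd : Pool.Agent.Helper59.MF.Dens H G g := ⟨hg, h0, hpos⟩
  have hgp : ∀ t, Pool.Agent.Helper18.GP.gp H G t = g t := fun t => by
    rw [hg t]
    unfold Pool.Agent.Helper18.GP.gp Pool.Agent.Helper82.FK.e
    refine sum_congr rfl fun k _ => ?_
    congr 2
    push_cast
    ring
  have hW : Pool.Agent.Helper18.GP.nm H G < a ^ (Pool.Agent.GJ.kJ a H) := hG
  obtain ⟨hk1, hk2⟩ := Pool.Agent.GJ.dim_J ha hab hH hgp h0 hpos hW (fun n => s (n + 1))
  have i1 : {x | x ∈ Set.Ioo a b ∧ HasLaw (fun n => x ^ n + s n) g} ⊆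
      {x : ℝ | x ∈ Set.Ioo a b ∧ Pool.Agent.Helper59.MF.HasLaw (fun n => x ^ (n + 1) + s (n + 1)) g} := fun x hx =>
    ⟨hx.1, (Pool.Agent.Helper59.MF.law_shift (fun n => x ^ n + s n) g 1).2 (Pool.Agent.Helper59.MF.law_of_intervals hd hx.2)⟩
  have i2 : {x : ℝ | x ∈ Set.Ioo a b ∧ Pool.Agent.Helper59.MF.HasJoint (fun n => x ^ (n + 1) + s (n + 1)) g} ⊆
      {x | x ∈ Set.Ioo a b ∧ Independent (fun n => x ^ n + s n) g} := fun x hx =>
    ⟨hx.1, fun r α β hαβ => Pool.Agent.Helper59.MF.joint_box hd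
      ((Pool.Agent.Helper59.MF.joint_shift (fun n => x ^ n + s n) g 1).1 hx.2) r α β
      (fun i => (hαβ i).1) (fun i => (hαβ i).2.1) (fun i => (hαβ i).2.2)⟩
  have i3 : {x | x ∈ Set.Ioo a b ∧ Independent (fun n => x ^ n + s n) g} ⊆
      {x | x ∈ Set.Ioo a b ∧ HasLaw (fun n => x ^ n + s n) g} :=
    fun x hx => ⟨hx.1, hx.2.law⟩
  have j1 := dimH_mono i1
  have j2 := dimH_mono i2
  have j3 := dimH_mono i3
  rw [hk1] at j1
  rw [hk2] at j2
  refine ⟨?_, le_antisymm j1 (j2.trans j3), le_antisymm (j3.trans j1) j2⟩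
  have hb : 1 < b := ha.trans hab
  have hW1 := Pool.Agent.GE.one_le_nm (H := H) h0
  have hc : Continuous g := hd.cont
  have hc2 : Continuous fun t => g t * Real.log (g t) := hc.mul (hc.log fun t => (hpos t).ne')
  have hκ1 : Pool.Agent.GJ.kJ a H ≤ 1 := by
    unfold Pool.Agent.GJ.kJ
    rw [div_le_one (by positivity)]
    have : (0 : ℝ) ≤ Pool.Agent.GJ.KJ a H := Nat.cast_nonneg _
    linarith
  have hnb : Pool.Agent.Helper18.GP.nm H G < b := by
    refine hW.trans_le (le_trans ?_ hab.le)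
    calc a ^ (Pool.Agent.GJ.kJ a H) ≤ a ^ (1 : ℝ) := Real.rpow_le_rpow_of_exponent_le ha.le hκ1
      _ = a := Real.rpow_one a
  refine lt_of_le_of_lt ?_ (Real.log_lt_log (by linarith) hnb)
  calc ∫ t in (0 : ℝ)..1, g t * Real.log (g t)
      ≤ ∫ t in (0 : ℝ)..1, g t * Real.log (Pool.Agent.Helper18.GP.nm H G) := by
        refine intervalIntegral.integral_mono_on zero_le_one (hc2.intervalIntegrable _ _)
          ((hc.mul continuous_const).intervalIntegrable _ _) fun t _ => ?_
        exact mul_le_mul_of_nonneg_left (Real.log_le_log (hpos t) (Pool.Agent.GE.g_le_nm hgp t)) (hpos t).le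
    _ = Real.log (Pool.Agent.Helper18.GP.nm H G) := by
        rw [intervalIntegral.integral_mul_const, Pool.Agent.Helper59.MF.int_gr hd, one_mul]

end Pool.Agent.Results.MP_9056e9_nt.ExactLaws
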