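import Mathlib
import Pool.Agent.Helper87.FK.Asm

set_option autoImplicit false

namespace Pool.Agent.Results.MP_295d38_ag.FullProportion

open MvPolynomial NumberField

/-- The families `F` of `(N + 1)`-tuples `Fⱼ` of forms of degree `d` in `N + 1` variables with
integral coefficients, such that `|F - B * A| ≤ ε * B` and `F ≡ F₀` modulo `m`, coefficient by
coefficient. -/
def box {ι : Type} (N d m : ℕ) (A : ι → Fin (N + 1) → MvPolynomial (Fin (N + 1)) ℝ) (ε : ℝ)
    (F₀ : ι → Fin (N + 1) → MvPolynomial (Fin (N + 1)) ℤ) (B : ℕ) :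
    Set (ι → Fin (N + 1) → MvPolynomial (Fin (N + 1)) ℤ) :=
  {F | ∀ j i, (F j i).IsHomogeneous d ∧
    ∀ s, |((coeff s (F j i) : ℤ) : ℝ) - B * coeff s (A j i)| ≤ ε * B ∧
      (m : ℤ) ∣ coeff s (F j i) - coeff s (F₀ j i)}

/-- The forms `∑ⱼ eⱼ Fⱼᵢ`. -/
noncomputable def comb {ι : Type} [Fintype ι] {N : ℕ} (e : ι → ℂ)
    (F : ι → Fin (N + 1) → MvPolynomial (Fin (N + 1)) ℤ) (i : Fin (N + 1)) :
    MvPolynomial (Fin (N + 1)) ℂ :=
  ∑ j, C (e j) * map (Int.castRingHom ℂ) (F j i)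

/-- The forms `Pᵢ` have no common zero in `ℂ ^ (N + 1)` except `0`, i.e. they define an endomorphism
of `ℙᴺ`. -/
def IsEndo {N : ℕ} (P : Fin (N + 1) → MvPolynomial (Fin (N + 1)) ℂ) : Prop :=
  ∀ z : Fin (N + 1) → ℂ, (∀ i, eval z (P i) = 0) → z = 0

/-- The endomorphism of `ℙᴺ` given by the forms `Pᵢ`, in homogeneous coordinates. -/
noncomputable def endo {N : ℕ} (P : Fin (N + 1) → MvPolynomial (Fin (N + 1)) ℂ)
    (x : Fin (N + 1) → ℂ) : Fin (N + 1) → ℂ :=
  fun i => eval x (P i)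

/-- The return set `{n : Φⁿ(α) ∈ V}` for the endomorphism `Φ` of `ℙᴺ` given by the forms `Pᵢ`, the
point `α` of `ℙᴺ` given by homogeneous coordinates, and the closed subset `V` of `ℙᴺ` cut out by the
forms of the set `V`. -/
def returnSet {N : ℕ} (P : Fin (N + 1) → MvPolynomial (Fin (N + 1)) ℂ) (α : Fin (N + 1) → ℂ)
    (V : Set (MvPolynomial (Fin (N + 1)) ℂ)) : Set ℕ :=
  {n | ∀ G ∈ V, eval ((endo P)^[n] α) G = 0}

/-- **The dynamical Mordell-Lang conjecture holds completely for a proportion of the endomorphisms of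
`ℙᴺ` over a number field `K` which tends to one with the number of primes of `K` of bounded norm.**
Let `K` be a number field in `ℂ`, let `eⱼ` be an integral basis of `K`, and let `S` be any finite
set of primes `P` of `K` with `N(P) ≡ 1` modulo `d` and `N(P)` prime to `2m`. Then a proportion at
least `1 - ∏ (1 - N(P) ^ (-D)) - η`, where `D` is the number of coefficients and `η > 0` is
arbitrary, of the endomorphisms of `ℙᴺ` over the integers of `K`, of degree `d`, in every large box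
and every residue class modulo `m`, satisfies: for all points and all closed subsets of `ℙᴺ` over
`ℂ` the return set is a finite union of arithmetic progressions. -/
theorem result (N d m : ℕ) (hd : 2 ≤ d) (hm : 1 ≤ m) (K : Type) [Field K] [NumberField K]
    (σ : K →+* ℂ) {ι : Type} [Fintype ι] (e : Module.Basis ι ℤ (𝓞 K)) (S : Finset (Ideal (𝓞 K)))
    (hS : ∀ P ∈ S, P.IsPrime ∧ Ideal.absNorm P ≡ 1 [MOD d] ∧ (Ideal.absNorm P).Coprime (2 * m))
    (A : ι → Fin (N + 1) → MvPolynomial (Fin (N + 1)) ℝ) (ε : ℝ)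
    (F₀ : ι → Fin (N + 1) → MvPolynomial (Fin (N + 1)) ℤ) (hA : ∀ j i, (A j i).IsHomogeneous d)
    (hε : 0 < ε) (hF₀ : ∀ j i, (F₀ j i).IsHomogeneous d) (η : ℝ) (hη : 0 < η) :
    ∃ B₀ : ℕ, ∀ B : ℕ, B₀ ≤ B → (box N d m A ε F₀ B).Finite ∧
      (1 - ∏ P ∈ S, (1 - 1 / (Ideal.absNorm P : ℝ) ^ ((N + 1) * (N + d).choose d)) - η) *
        ((box N d m A ε F₀ B).ncard : ℝ) ≤
          (({F ∈ box N d m A ε F₀ B | IsEndo (comb (fun j => σ (e j)) F) ∧
            ∀ α : Fin (N + 1) → ℂ, α ≠ 0 → ∀ V : Set (MvPolynomial (Fin (N + 1)) ℂ),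
              (∀ G ∈ V, ∃ k : ℕ, G.IsHomogeneous k) → ∃ T : Finset (ℕ × ℕ),
                returnSet (comb (fun j => σ (e j)) F) α V =
                  {n | ∃ q ∈ T, ∃ k, n = q.1 + q.2 * k}}).ncard : ℝ) := by
  obtain ⟨B₀, h⟩ := Pool.Agent.Helper87.FK.fk_main N d m K e hd hm σ S hS A ε F₀ hA hε hF₀ η hη
  refine ⟨B₀, fun B hB => ?_⟩
  obtain ⟨hfin, h1⟩ := h B hB
  have hbox : Pool.Agent.Helper87.FK.kbox N d m A ε F₀ B = box N d m A ε F₀ B := rfl
  rw [hbox] at hfin h1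
  refine ⟨hfin, h1.trans (Nat.cast_le.2 (Set.ncard_le_ncard ?_ (hfin.subset fun F hF => hF.1)))⟩
  rintro F ⟨hF, hE, hC⟩
  exact ⟨hF, fun z hz => hE z (funext hz), fun α hα V hV => hC α hα V hV⟩

end Pool.Agent.Results.MP_295d38_ag.FullProportion
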